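import Pool.Agent.H250.MR.NCfinal
import Pool.Agent.H250.MR.ZPT
import Pool.Agent.H250.MR.PH3
import Pool.Agent.H250.MR.LOWIMP
import Pool.Agent.H250.MR.LOCZ
import Pool.Agent.H250.MR.ESYM2
import Pool.Agent.H250.MR.ID
import Pool.Agent.H250.MR.ONE
import Pool.Agent.H250.MR.C1
import Pool.Agent.H250.MR.C2
import Pool.Agent.H250.MR.C1F
import Pool.Agent.H250.MR.AF
import Pool.Agent.H250.MR.General

set_option autoImplicit false

open Polynomial
open scoped ENNReal

namespace Pool.Agent.Results.MP_172a45_an.AllLargeDegrees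

/-- **Mean reciprocal distance from a zero to the critical points, all large degrees.**
Let `P` have degree `n` with `log n ≥ 10²⁴` and all its zeros in the closed unit disc, and let `a` be a
zero of `P` with `|a| < 1`. Then the sum of the reciprocal distances from `a` to the critical points of
`P` (with multiplicity; `∞` if `a` is one of them) is greater than `n - 1`. -/
theorem result (P : ℂ[X]) (hn : 10 ^ 24 ≤ Real.log P.natDegree) (hz : ∀ z ∈ P.roots, ‖z‖ ≤ 1)
    (a : ℂ) (ha : a ∈ P.roots) (ha1 : ‖a‖ < 1) :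
    ((P.natDegree - 1 : ℕ) : ℝ≥0∞) <
      (P.derivative.roots.map fun ζ => (‖a - ζ‖ₑ)⁻¹).sum := by
  have hn2 : 2 ≤ P.natDegree := by
    by_contra hc
    have h1 : P.natDegree = 0 ∨ P.natDegree = 1 := by omega
    rcases h1 with h1 | h1 <;> rw [h1] at hn <;> norm_num at hn
  obtain ⟨N, hN⟩ : ∃ N, P.natDegree = N + 1 := ⟨P.natDegree - 1, by omega⟩
  have hN1 : 1 ≤ N := by omega
  have hcast : ((P.natDegree : ℕ) : ℝ) = N + 1 := by rw [hN]; push_cast; rfl
  rw [hcast] at hn
  rcases le_total (4 * 10 ^ 11 * Real.log (N + 1)) ((N + 1) * (1 - ‖a‖)) with h2 | h2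
  · exact Pool.Agent.H250.MR.transfer P hN1 hN hz a ha fun z w hz1 hw hne =>
      Pool.Agent.H250.MR.core_large hN1 (norm_nonneg a) z w hz1 hw hne hn h2
  · have ha0 : 0 < ‖a‖ := by
      rcases (norm_nonneg a).eq_or_lt with h0 | h0
      · exfalso
        rw [← h0, sub_zero, mul_one] at h2
        have h3 := Pool.Agent.H250.MR.growth2 hn
        have hN0 : (0 : ℝ) ≤ N := Nat.cast_nonneg N
        rw [Real.exp_log (by linarith)] at h3
        have h4 : Real.log ((N : ℝ) + 1) ≤ Real.log ((N : ℝ) + 1) ^ 20 :=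
          le_self_pow₀ (by linarith) (by norm_num)
        have h5 : (10 : ℝ) ^ 12 * Real.log ((N : ℝ) + 1) ^ 20 ≤
            10 ^ 200 * Real.log ((N : ℝ) + 1) ^ 20 :=
          mul_le_mul_of_nonneg_right (by norm_num) (by positivity)
        linarith
      · exact h0
    exact Pool.Agent.H250.MR.transfer P hN1 hN hz a ha fun z w hz1 hw hne =>
      Pool.Agent.H250.MR.core_near Pool.Agent.H250.MR.ZPTf.ZPT Pool.Agent.H250.MR.ESYMf.ESYM2
        Pool.Agent.H250.MR.AFf.AF Pool.Agent.H250.MR.ONEf.ONE Pool.Agent.H250.MR.LIf.LOWIMP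
        Pool.Agent.H250.MR.PH3f.PH3 Pool.Agent.H250.MR.IDf.ID Pool.Agent.H250.MR.LOCZf.LOCZ
        Pool.Agent.H250.MR.C1f.C1 Pool.Agent.H250.MR.C2f.C2 Pool.Agent.H250.MR.C1Ff.C1F
        hN1 ha0 ha1 z w hz1 hw hne hn h2

end Pool.Agent.Results.MP_172a45_an.AllLargeDegrees
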