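import Pool.Agent.H250.MR.General

set_option autoImplicit false

open Polynomial
open scoped ENNReal

namespace Pool.Agent.Results.MP_172a45_an.MiddleRange

/-- Let `P` have degree `n ≥ 2` and all its zeros in the closed unit disc, and let `a` be a zero
with `n |a|² (1 - |a|) ≥ 10¹¹ log n`. Then the sum of the reciprocal distances from `a` to the
critical points of `P` (with multiplicity; `∞` if `a` is one of them) is greater than `n - 1`. -/
theorem result (P : ℂ[X]) (hn : 2 ≤ P.natDegree) (hz : ∀ z ∈ P.roots, ‖z‖ ≤ 1)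
    (a : ℂ) (ha : a ∈ P.roots)
    (h : 10 ^ 11 * Real.log P.natDegree ≤ P.natDegree * ‖a‖ ^ 2 * (1 - ‖a‖)) :
    ((P.natDegree - 1 : ℕ) : ℝ≥0∞) <
      (P.derivative.roots.map fun ζ => (‖a - ζ‖ₑ)⁻¹).sum := by
  obtain ⟨N, hN⟩ : ∃ N, P.natDegree = N + 1 := ⟨P.natDegree - 1, by omega⟩
  have hN1 : 1 ≤ N := by omega
  have hcast : ((P.natDegree : ℕ) : ℝ) = N + 1 := by rw [hN]; push_cast; rfl
  rw [hcast] at h
  have hL : 0 < Real.log ((N : ℝ) + 1) := Real.log_pos (by
    have : (1 : ℝ) ≤ N := by exact_mod_cast hN1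
    linarith)
  have hpos : 0 < ((N : ℝ) + 1) * ‖a‖ ^ 2 * (1 - ‖a‖) := lt_of_lt_of_le (by positivity) h
  have ha0 : 0 < ‖a‖ := by
    rcases (norm_nonneg a).eq_or_lt with h0 | h0
    · rw [← h0] at hpos; simp at hpos
    · exact h0
  have ha1 : ‖a‖ < 1 := by
    by_contra hc
    have : ((N : ℝ) + 1) * ‖a‖ ^ 2 * (1 - ‖a‖) ≤ 0 :=
      mul_nonpos_of_nonneg_of_nonpos (by positivity) (by linarith)
    linarith
  exact Pool.Agent.H250.MR.transfer P hN1 hN hz a ha fun z w hz1 hw hne =>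
    Pool.Agent.H250.MR.core hN1 ha0 ha1 z w hz1 hw hne h

end Pool.Agent.Results.MP_172a45_an.MiddleRange
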